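import Pool.Agent.H159.LS.Two

/-! Depth parts and the Ihara bracket. -/

set_option autoImplicit false

namespace Pool.Agent.H159.LS

open Pool.Agent.H777R4.DM Pool.Agent.H217R3.DMC MonoidAlgebra

attribute [local instance 100] LieRing.ofAssociativeRing

/-- number of letters `x₁` -/
def ω1 (m : FreeMonoid (Fin 2)) : ℕ := (FreeMonoid.toList m).count 1

lemma ω1_mul (a b : FreeMonoid (Fin 2)) : ω1 (a * b) = ω1 a + ω1 b := by
  simp [ω1, FreeMonoid.toList_mul]

/-- the part of depth `r` -/
noncomputable def dpart (r : ℕ) : A →ₗ[ℚ] A := pr ω1 r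

lemma co_dpart (r : ℕ) (ψ : A) (u : List (Fin 2)) :
    co (dpart r ψ) u = if u.count 1 = r then co ψ u else 0 := by
  unfold dpart co
  rw [coeff_pr]
  rfl

/-- the elements of depth at least `k`: all words contain at least `k` letters `x₁` -/
noncomputable def D (k : ℕ) : Submodule ℚ A where
  carrier := {ψ | ∀ u, co ψ u ≠ 0 → k ≤ u.count 1}
  add_mem' := by
    intro a b ha hb u hu
    rw [H777R4.DM.co_add] at hu
    by_cases h : co a u = 0
    · refine hb u fun h' => hu ?_
      rw [h, h', add_zero]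
    · exact ha u h
  zero_mem' := fun u hu => absurd (H777R4.DM.co_zero u) hu
  smul_mem' := by
    intro c a ha u hu
    refine ha u fun h' => hu ?_
    rw [H777R4.DM.co_smul, h', mul_zero]

lemma mem_D {k : ℕ} {ψ : A} : ψ ∈ D k ↔ ∀ u, co ψ u ≠ 0 → k ≤ u.count 1 := Iff.rfl

lemma D_mono {k l : ℕ} (h : k ≤ l) : D l ≤ D k := fun _ hψ u hu => h.trans (hψ u hu)

/-- all words have their depth in `p` -/
def Cnt (p : ℕ → Prop) (ψ : A) : Prop := ∀ u, co ψ u ≠ 0 → p (u.count 1)

lemma Cnt.add {p : ℕ → Prop} {a b : A} (ha : Cnt p a) (hb : Cnt p b) : Cnt p (a + b) := by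
  intro u hu
  rw [H777R4.DM.co_add] at hu
  by_cases h : co a u = 0
  · refine hb u fun h' => hu ?_
    rw [h, h', add_zero]
  · exact ha u h

lemma Cnt.smul {p : ℕ → Prop} {a : A} (c : ℚ) (ha : Cnt p a) : Cnt p (c • a) := by
  intro u hu
  refine ha u fun h' => hu ?_
  rw [H777R4.DM.co_smul, h', mul_zero]

lemma Cnt.neg {p : ℕ → Prop} {a : A} (ha : Cnt p a) : Cnt p (-a) := by
  have := ha.smul (-1)
  simpa using this

lemma Cnt.sub {p : ℕ → Prop} {a b : A} (ha : Cnt p a) (hb : Cnt p b) : Cnt p (a - b) := by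
  rw [sub_eq_add_neg]
  exact ha.add hb.neg

lemma Cnt.zero {p : ℕ → Prop} : Cnt p 0 := fun u hu => absurd (H777R4.DM.co_zero u) hu

lemma Cnt.sum {ι : Type} {p : ℕ → Prop} (s : Finset ι) (f : ι → A) (h : ∀ i ∈ s, Cnt p (f i)) :
    Cnt p (∑ i ∈ s, f i) := by
  classical
  induction s using Finset.induction_on with
  | empty => simpa using Cnt.zero
  | insert a s ha ih =>
    rw [Finset.sum_insert ha]
    exact (h a (Finset.mem_insert_self _ _)).add (ih fun i hi => h i (Finset.mem_insert_of_mem hi))

lemma Cnt.mono {p q : ℕ → Prop} {a : A} (h : ∀ n, p n → q n) (ha : Cnt p a) : Cnt q a :=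
  fun u hu => h _ (ha u hu)

lemma Cnt.mul {p q s : ℕ → Prop} (h : ∀ a b, p a → q b → s (a + b)) {f g : A} (hf : Cnt p f)
    (hg : Cnt q g) : Cnt s (f * g) := by
  intro u hu
  obtain ⟨a, b, rfl, h2, h3⟩ := H777R4.DM.Lead2.co_mul_ne hu
  rw [List.count_append]
  exact h _ _ (hf a h2) (hg b h3)

lemma Cnt.wd (u : List (Fin 2)) : Cnt (fun n => n = u.count 1) (wd u) := by
  intro v hv
  rw [H777R4.DM.co_wd] at hv
  split_ifs at hv with h
  · rw [h]
  · exact absurd rfl hv

lemma Cnt.derW {p : ℕ → Prop} {f : A} (hf : Cnt p f) (u : List (Fin 2)) :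
    Cnt (fun n => ∃ a, p a ∧ n = a + u.count 1) (derW f u) := by
  induction u with
  | nil => exact Cnt.zero
  | cons i u ih =>
    have hx : Cnt (fun n => n = [i].count 1) (x i) := Cnt.wd [i]
    have h2 : Cnt (fun n => ∃ a, p a ∧ n = a + (i :: u).count 1) (x i * H777R4.DM.derW f u) := by
      refine Cnt.mul ?_ hx ih
      rintro a b rfl ⟨c, hc, rfl⟩
      refine ⟨c, hc, ?_⟩
      have : (i :: u).count 1 = [i].count 1 + u.count 1 := by
        rw [← List.count_append]; rfl
      rw [this]; ring
    refine Cnt.add ?_ h2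
    by_cases hi : i = 1
    · subst hi
      rw [if_pos rfl]
      have h3 : Cnt (fun n => ∃ a, p a ∧ n = a + 1) (x 1 * f - f * x 1) := by
        refine Cnt.sub ?_ ?_
        · refine Cnt.mul ?_ hx hf
          rintro a b rfl hb
          exact ⟨b, hb, by simp [add_comm]⟩
        · refine Cnt.mul ?_ hf hx
          rintro a b ha rfl
          exact ⟨a, ha, by simp⟩
      refine Cnt.mul ?_ h3 (Cnt.wd u)
      rintro a b ⟨c, hc, rfl⟩ rfl
      refine ⟨c, hc, ?_⟩
      rw [List.count_cons_self]; ring
    · rw [if_neg hi, zero_mul]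
      exact Cnt.zero

lemma Cnt.der {p q s : ℕ → Prop} (h : ∀ a b, p a → q b → s (a + b)) {f g : A} (hf : Cnt p f)
    (hg : Cnt q g) : Cnt s (der f g) := by
  rw [H777R4.DM.Lead2.expand g, map_sum]
  refine Cnt.sum _ _ fun m hm => ?_
  rw [map_smul]
  refine Cnt.smul _ ?_
  unfold H777R4.DM.der
  rw [H777R4.DM.lext_wd]
  refine Cnt.mono ?_ (hf.derW _)
  rintro n ⟨a, ha, rfl⟩
  exact h _ _ ha (hg _ (Finsupp.mem_support_iff.1 hm))

lemma Cnt.ihara {p q s : ℕ → Prop} (h : ∀ a b, p a → q b → s (a + b)) {f g : A} (hf : Cnt p f)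
    (hg : Cnt q g) : Cnt s (ihara f g) := by
  have h' : ∀ a b, q a → p b → s (a + b) := fun a b ha hb => by rw [add_comm]; exact h b a hb ha
  unfold H777R4.DM.ihara
  exact (((hf.mul h hg).sub (hg.mul h' hf)).add (hf.der h hg)).sub (hg.der h' hf)

/-- the Ihara bracket as a bilinear map -/
noncomputable def iharaL : A →ₗ[ℚ] A →ₗ[ℚ] A :=
  LinearMap.mk₂ ℚ ihara
    (by intro a b c; unfold ihara; rw [der_add, map_add]; simp only [add_mul, mul_add,
      LinearMap.add_apply]; abel)
    (by intro c a b; unfold ihara; rw [der_smul, map_smul]; simp only [smul_mul_assoc,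
      mul_smul_comm, LinearMap.smul_apply, smul_sub, smul_add])
    (by intro a b c; unfold ihara; rw [der_add, map_add]; simp only [add_mul, mul_add,
      LinearMap.add_apply]; abel)
    (by intro c a b; unfold ihara; rw [der_smul, map_smul]; simp only [smul_mul_assoc,
      mul_smul_comm, LinearMap.smul_apply, smul_sub, smul_add])

lemma iharaL_apply (f g : A) : iharaL f g = ihara f g := rfl

lemma ihara_mem_D {r s : ℕ} {f g : A} (hf : f ∈ D r) (hg : g ∈ D s) : ihara f g ∈ D (r + s) :=
  Cnt.ihara (p := fun n => r ≤ n) (q := fun n => s ≤ n) (s := fun n => r + s ≤ n)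
    (fun a b ha hb => by omega) hf hg

lemma dpart_hom (r : ℕ) (f : A) : Cnt (fun n => n = r) (dpart r f) := by
  intro u hu
  rw [co_dpart] at hu
  split_ifs at hu with h
  · exact h
  · exact absurd rfl hu

lemma dpart_of_hom {r : ℕ} {f : A} (h : Cnt (fun n => n = r) f) : dpart r f = f := by
  apply al_ext
  intro u
  rw [co_dpart]
  by_cases hu : co f u = 0
  · rw [hu]; split_ifs <;> rfl
  · rw [if_pos (h u hu)]

lemma dpart_of_D {r : ℕ} {f : A} (h : f ∈ D (r + 1)) : dpart r f = 0 := by
  apply al_ext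
  intro u
  rw [co_dpart, H777R4.DM.co_zero]
  split_ifs with h1
  · by_contra hu
    have := h u hu
    omega
  · rfl

lemma dpart_mem_D (r : ℕ) (f : A) : dpart r f ∈ D r := fun u hu => (dpart_hom r f u hu).ge

lemma sub_dpart {r : ℕ} {f : A} (h : f ∈ D r) : f - dpart r f ∈ D (r + 1) := by
  intro u hu
  rw [H777R4.DM.co_sub, co_dpart] at hu
  by_cases h1 : u.count 1 = r
  · rw [if_pos h1, sub_self] at hu
    exact absurd rfl hu
  · rw [if_neg h1, sub_zero] at hu
    have := h u hu
    omega

lemma mem_D_succ {r : ℕ} {f : A} (h : f ∈ D r) (h0 : dpart r f = 0) : f ∈ D (r + 1) := by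
  have := sub_dpart h
  rwa [h0, sub_zero] at this

/-- the leading part of a bracket -/
lemma dpart_ihara {r s : ℕ} {f g : A} (hf : f ∈ D r) (hg : g ∈ D s) :
    dpart (r + s) (ihara f g) = ihara (dpart r f) (dpart s g) := by
  have e1 : f = dpart r f + (f - dpart r f) := by abel
  have e2 : g = dpart s g + (g - dpart s g) := by abel
  have h1 : ihara f g = ihara (dpart r f) (dpart s g) + (ihara (dpart r f) (g - dpart s g)
      + ihara (f - dpart r f) g) := by
    have k1 : ihara f g = ihara (dpart r f) g + ihara (f - dpart r f) g := by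
      conv_lhs => rw [e1]
      rw [← iharaL_apply, map_add, LinearMap.add_apply]; rfl
    have k2 : ihara (dpart r f) g = ihara (dpart r f) (dpart s g) +
        ihara (dpart r f) (g - dpart s g) := by
      conv_lhs => rw [e2]
      rw [← iharaL_apply, map_add]; rfl
    rw [k1, k2]; abel
  have h2 : ihara (dpart r f) (g - dpart s g) + ihara (f - dpart r f) g ∈ D (r + s + 1) := by
    refine (D _).add_mem ?_ ?_
    · have := ihara_mem_D (dpart_mem_D r f) (sub_dpart hg)
      rwa [← add_assoc] at this
    · have := ihara_mem_D (sub_dpart hf) hg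
      rwa [add_right_comm] at this
  have h3 : Cnt (fun n => n = r + s) (ihara (dpart r f) (dpart s g)) :=
    Cnt.ihara (p := fun n => n = r) (q := fun n => n = s) (fun a b ha hb => by rw [ha, hb])
      (dpart_hom r f) (dpart_hom s g)
  rw [h1, map_add, dpart_of_hom h3, dpart_of_D h2, add_zero]

/-! ### depth parts of Lie elements -/

lemma dpart_x (w : ℕ) (i : Fin 2) : dpart w (x i) = if [i].count 1 = w then x i else 0 := by
  apply al_ext
  intro u
  rw [co_dpart]
  by_cases h : u = [i]
  · subst h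
    split_ifs <;> simp
  · have h1 : co (x i) u = 0 := by
      unfold x
      rw [H777R4.DM.co_wd, if_neg (Ne.symm h)]
    rw [h1]
    split_ifs <;> simp [h1]

/-- the Lie subalgebra of the elements with all depth parts in `LieX` -/
noncomputable def KD : LieSubalgebra ℚ A where
  carrier := {ψ | ∀ w, dpart w ψ ∈ LieX}
  add_mem' := by
    intro a b ha hb w
    rw [map_add]
    exact LieX.add_mem (ha w) (hb w)
  zero_mem' := by
    intro w
    rw [map_zero]
    exact LieX.zero_mem
  smul_mem' := by
    intro c a ha w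
    rw [map_smul]
    exact LieX.smul_mem c (ha w)
  lie_mem' := by
    intro a b ha hb w
    have h1 : dpart w ⁅a, b⁆ =
        ∑ ij ∈ Finset.HasAntidiagonal.antidiagonal w, ⁅dpart ij.1 a, dpart ij.2 b⁆ := by
      simp only [LieRing.of_associative_ring_bracket, map_sub, dpart, Finset.sum_sub_distrib]
      rw [pr_mul ω1 ω1_mul, pr_mul ω1 ω1_mul]
      congr 1
      refine Finset.sum_nbij' Prod.swap Prod.swap ?_ ?_ ?_ ?_ ?_
      · rintro ⟨i, j⟩ h; simp only [Finset.HasAntidiagonal.mem_antidiagonal, Prod.swap] at h ⊢; omega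
      · rintro ⟨i, j⟩ h; simp only [Finset.HasAntidiagonal.mem_antidiagonal, Prod.swap] at h ⊢; omega
      · rintro ⟨i, j⟩ _; rfl
      · rintro ⟨i, j⟩ _; rfl
      · rintro ⟨i, j⟩ _; rfl
    rw [h1]
    apply sum_mem
    intro ij _
    exact LieX.lie_mem (ha _) (hb _)

lemma LieX_le_KD : LieX ≤ KD := by
  unfold LieX
  rw [LieSubalgebra.lieSpan_le]
  intro y hy w
  have hx : ∀ i, x i ∈ LieX := by
    intro i
    unfold LieX
    apply LieSubalgebra.subset_lieSpan
    fin_cases i <;> simp
  rcases hy with rfl | hy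
  · rw [dpart_x]
    split_ifs
    · exact hx 0
    · exact LieX.zero_mem
  · rw [Set.mem_singleton_iff] at hy
    subst hy
    rw [dpart_x]
    split_ifs
    · exact hx 1
    · exact LieX.zero_mem

lemma comp_dpart (w r : ℕ) (ψ : A) :
    H777R4.DM.comp w (dpart r ψ) = dpart r (H777R4.DM.comp w ψ) := by
  apply al_ext
  intro u
  rw [H777R4.DM.co_comp, co_dpart, co_dpart, H777R4.DM.co_comp]
  split_ifs <;> rfl

lemma Fp_dpart (r s j : ℕ) (ψ : A) : Fp s (dpart r ψ) j = if s = r then Fp s ψ j else 0 := by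
  apply al_ext
  intro v
  rw [co_Fp, co_dpart, word_count]
  by_cases h1 : v.length = s
  · by_cases h2 : s = r
    · rw [if_pos h1, if_pos (h1.trans h2), if_pos h2, co_Fp, if_pos h1]
    · rw [if_pos h1, if_neg (fun h => h2 (h1.symm.trans h)), if_neg h2, H777R4.DM.co_zero]
  · rw [if_neg h1]
    split_ifs
    · rw [co_Fp, if_neg h1]
    · rw [H777R4.DM.co_zero]

/-- the depth parts of an element satisfying the linearised relations satisfy them -/
lemma isLS_dpart {ψ : A} (h : IsLS ψ) (r : ℕ) : IsLS (dpart r ψ) := by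
  refine isLS_of (LieX_le_KD h.mem r) ?_ ?_
  · intro u hu
    rw [co_dpart] at hu
    split_ifs at hu with h1
    · exact h.small u hu
    · exact absurd rfl hu
  · intro w s
    rw [comp_dpart, Fp_dpart]
    split_ifs
    · exact h.fp w s
    · exact prim_zero

lemma small_dm {ψ : A} (h : IsDM ψ) : ∀ u, co ψ u ≠ 0 → 3 ≤ u.length ∧ 1 ≤ u.count 1 :=
  taskSmall_proof taskTwoB Pool.Agent.H352.DSH.taskTwoC ψ h

/-- the lowest depth part of an element of `dm` satisfies the linearised relations -/
lemma isLS_lead {ψ : A} (h : IsDM ψ) {r : ℕ} (hr : ψ ∈ D r) : IsLS (dpart r ψ) := by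
  have small := small_dm h
  refine isLS_of (LieX_le_KD h.mem r) ?_ ?_
  · intro u hu
    rw [co_dpart] at hu
    split_ifs at hu with h1
    · exact small u hu
    · exact absurd rfl hu
  · intro w s
    rw [comp_dpart, Fp_dpart]
    split_ifs with hs
    · subst hs
      rcases Nat.eq_zero_or_pos s with h0 | h0
      · subst h0
        have : Fp 0 (H777R4.DM.comp w ψ) 0 = 0 := by
          apply al_ext
          intro v
          rw [co_Fp, H777R4.DM.co_zero]
          split_ifs with h1
          · rw [List.length_eq_zero_iff] at h1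
            subst h1
            by_contra h2
            rw [H777R4.DM.co_comp] at h2
            split_ifs at h2 with h3
            · have := (small _ h2).1
              simp [wordX] at this
            · exact h2 rfl
          · rfl
        rw [this]
        exact prim_zero
      · refine Pool.Agent.H466R3.DMPrim0.prim0 (H777R4.DM.comp w ψ)
          (Pool.Agent.H217R3.DMC.taskComp ψ w h) s h0 ?_ _ ?_
        · intro u hu
          rw [H777R4.DM.co_comp] at hu
          split_ifs at hu with h3
          · exact hr u hu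
          · exact absurd rfl hu
        · intro v
          rw [co_Fp, List.replicate_zero, List.append_nil]
    · exact prim_zero

end Pool.Agent.H159.LS
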