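import Pool.Agent.H159.LS.Depth

/-! Subalgebras with finite-dimensional depth quotients, and their idealizers. -/

set_option autoImplicit false

namespace Pool.Agent.H159.LS

open Pool.Agent.H777R4.DM

/-- all leading parts satisfy the linearised relations -/
def Good (K : Submodule ℚ A) : Prop := ∀ φ ∈ K, φ ∈ D 1 ∧ ∀ r, φ ∈ D r → IsLS (dpart r φ)

lemma good_dm {K : Submodule ℚ A} (h : ∀ φ ∈ K, IsDM φ) : Good K := fun φ hφ =>
  ⟨fun u hu => (small_dm (h φ hφ) u hu).2, fun _ hr => isLS_lead (h φ hφ) hr⟩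

lemma good_ls {K : Submodule ℚ A} (h : ∀ φ ∈ K, IsLS φ) : Good K := fun φ hφ =>
  ⟨fun u hu => ((h φ hφ).small u hu).2, fun r _ => isLS_dpart (h φ hφ) r⟩

lemma exists_lead {ψ : A} (h : ψ ≠ 0) : ∃ r, ψ ∈ D r ∧ dpart r ψ ≠ 0 := by
  classical
  have hex : ∃ c, ∃ u, co ψ u ≠ 0 ∧ u.count 1 = c := by
    obtain ⟨u, hu⟩ := H777R4.DM.exists_co_ne h
    exact ⟨_, u, hu, rfl⟩
  refine ⟨Nat.find hex, fun u hu => Nat.find_min' hex ⟨u, hu, rfl⟩, ?_⟩
  obtain ⟨u, hu, h1⟩ := Nat.find_spec hex
  intro h0
  have := co_dpart (Nat.find hex) ψ u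
  rw [h0, H777R4.DM.co_zero, if_pos h1] at this
  exact hu this.symm

lemma fg_le {V : Type} [AddCommGroup V] [Module ℚ V] {S T : Submodule ℚ V} (h : S ≤ T) (hT : T.FG) :
    S.FG := by
  rw [Submodule.fg_iff_finiteDimensional] at hT ⊢
  exact Submodule.finiteDimensional_of_le h

lemma fg_lower {K : Submodule ℚ A} {k l : ℕ} (h : k ≤ l) (hF : (K.map (D l).mkQ).FG) :
    (K.map (D k).mkQ).FG := by
  have hle : D l ≤ (D k).comap (LinearMap.id : A →ₗ[ℚ] A) := by
    rw [Submodule.comap_id]
    exact D_mono h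
  have := hF.map ((D l).mapQ (D k) LinearMap.id hle)
  rwa [← Submodule.map_comp, Submodule.mapQ_mkQ, LinearMap.comp_id] at this

/-- if `N` maps `K` into `K`, and `K` contains an element of depth exactly `r`, then `N` is
finite-dimensional modulo depth `k` if `K` is finite-dimensional modulo depth `k + r` -/
theorem idealizer {K N : Submodule ℚ A} (gK : Good K) (gN : Good N) {ψ : A} {r : ℕ} (hψK : ψ ∈ K)
    (hr : ψ ∈ D r) (hr0 : dpart r ψ ≠ 0) (hbr : ∀ φ ∈ N, ∀ ψ ∈ K, ihara φ ψ ∈ K) (k : ℕ) :
    (K.map (D (k + r)).mkQ).FG → (N.map (D k).mkQ).FG := by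
  induction k with
  | zero =>
    intro _
    have : N.map (D 0).mkQ = ⊥ := by
      rw [eq_bot_iff]
      rintro _ ⟨φ, _, rfl⟩
      rw [Submodule.mem_bot, Submodule.mkQ_apply, Submodule.Quotient.mk_eq_zero]
      exact fun u _ => Nat.zero_le _
    rw [this]
    exact Submodule.fg_bot
  | succ k ih =>
    intro hF
    have hle : D (k + 1) ≤ (D k).comap (LinearMap.id : A →ₗ[ℚ] A) := by
      rw [Submodule.comap_id]
      exact D_mono (Nat.le_succ k)
    refine Submodule.fg_of_fg_map_of_fg_inf_ker ((D (k + 1)).mapQ (D k) LinearMap.id hle) ?_ ?_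
    · rw [← Submodule.map_comp, Submodule.mapQ_mkQ, LinearMap.comp_id]
      exact ih (fg_lower (by omega) hF)
    · have hT : D (k + 1) ≤ (D (k + 1 + r)).comap (iharaL.flip ψ) := by
        intro φ hφ
        rw [Submodule.mem_comap, LinearMap.flip_apply, iharaL_apply]
        exact ihara_mem_D hφ hr
      refine Submodule.fg_of_fg_map_of_fg_inf_ker
        ((D (k + 1)).mapQ (D (k + 1 + r)) (iharaL.flip ψ) hT) ?_ ?_
      · refine fg_le ?_ hF
        rintro _ ⟨y, ⟨⟨φ, hφ, rfl⟩, _⟩, rfl⟩
        refine ⟨ihara φ ψ, hbr φ hφ ψ hψK, ?_⟩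
        rw [Submodule.mkQ_apply, Submodule.mkQ_apply, Submodule.mapQ_apply]
        rfl
      · refine fg_le ?_ (Submodule.fg_span_singleton ((D (k + 1)).mkQ ψ))
        rintro y ⟨⟨⟨φ, hφ, rfl⟩, h2⟩, h3⟩
        have h2' : φ ∈ D k := by
          have := h2
          rw [SetLike.mem_coe, LinearMap.mem_ker, Submodule.mkQ_apply, Submodule.mapQ_apply,
            Submodule.Quotient.mk_eq_zero] at this
          exact this
        have h3' : ihara φ ψ ∈ D (k + 1 + r) := by
          have := h3
          rw [SetLike.mem_coe, LinearMap.mem_ker, Submodule.mkQ_apply, Submodule.mapQ_apply,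
            Submodule.Quotient.mk_eq_zero] at this
          exact this
        have hk := (gN φ hφ).2 k h2'
        have hl := (gK ψ hψK).2 r hr
        have h4 : ihara (dpart k φ) (dpart r ψ) = 0 := by
          rw [← dpart_ihara h2' hr]
          apply dpart_of_D
          have e : k + 1 + r = k + r + 1 := by ring
          rwa [e] at h3'
        have h5 : ∃ c : ℚ, dpart k φ = c • dpart r ψ := by
          by_contra hcon
          push Not at hcon
          refine ihara_ne_zero hk hl (fun a b hab => ?_) h4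
          have ha : a = 0 := by
            by_contra ha
            apply hcon (-(a⁻¹ * b))
            have e3 : a • dpart k φ = - (b • dpart r ψ) := eq_neg_of_add_eq_zero_left hab
            have e4 : dpart k φ = a⁻¹ • (a • dpart k φ) := by
              rw [smul_smul, inv_mul_cancel₀ ha, one_smul]
            rw [e4, e3]
            module
          refine ⟨ha, ?_⟩
          rw [ha, zero_smul, zero_add] at hab
          exact (smul_eq_zero.mp hab).resolve_right hr0
        obtain ⟨c, hc⟩ := h5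
        rw [Submodule.mem_span_singleton]
        by_cases hkr : k = r
        · subst hkr
          refine ⟨c, ?_⟩
          have h6 : φ - c • ψ ∈ D (k + 1) := by
            refine mem_D_succ ((D k).sub_mem h2' ((D k).smul_mem c hr)) ?_
            rw [map_sub, map_smul, hc, sub_self]
          rw [← map_smul]
          symm
          rw [← sub_eq_zero, ← map_sub, Submodule.mkQ_apply, Submodule.Quotient.mk_eq_zero]
          exact h6
        · refine ⟨0, ?_⟩
          have h6 : dpart k φ = 0 := by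
            apply al_ext
            intro u
            rw [H777R4.DM.co_zero]
            by_contra hu
            have e1 := dpart_hom k φ u hu
            rw [hc, H777R4.DM.co_smul] at hu
            have e2 := dpart_hom r ψ u (right_ne_zero_of_mul hu)
            exact hkr (e1.symm.trans e2)
          rw [zero_smul]
          symm
          rw [Submodule.mkQ_apply, Submodule.Quotient.mk_eq_zero]
          exact mem_D_succ h2' h6

lemma fg_lift {K W : Submodule ℚ A} (h : (K.map W.mkQ).FG) :
    ∃ V : Submodule ℚ A, V.FG ∧ V ≤ K ∧ K ≤ V ⊔ W := by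
  classical
  obtain ⟨s, hs⟩ := h
  have h1 : ∀ y : A ⧸ W, ∃ a : A, y ∈ s → a ∈ K ∧ W.mkQ a = y := by
    intro y
    by_cases hy : y ∈ s
    · have : y ∈ K.map W.mkQ := by
        rw [← hs]
        exact Submodule.subset_span hy
      obtain ⟨a, ha, rfl⟩ := this
      exact ⟨a, fun _ => ⟨ha, rfl⟩⟩
    · exact ⟨0, fun h => absurd h hy⟩
  choose f hf using h1
  refine ⟨Submodule.span ℚ (f '' s), Submodule.fg_span (s.finite_toSet.image f), ?_, ?_⟩
  · rw [Submodule.span_le]
    rintro _ ⟨y, hy, rfl⟩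
    exact (hf y hy).1
  · intro a ha
    have h2 : W.mkQ a ∈ (Submodule.span ℚ (f '' s)).map W.mkQ := by
      have h3 : W.mkQ a ∈ K.map W.mkQ := ⟨a, ha, rfl⟩
      rw [← hs] at h3
      refine Submodule.span_le.2 ?_ h3
      intro y hy
      exact ⟨f y, Submodule.subset_span ⟨y, hy, rfl⟩, (hf y hy).2⟩
    obtain ⟨v, hv, hva⟩ := h2
    rw [Submodule.mem_sup]
    refine ⟨v, hv, a - v, ?_, by abel⟩
    rw [← Submodule.Quotient.mk_eq_zero, ← Submodule.mkQ_apply, map_sub, hva, sub_self]

/-- a subspace generated modulo brackets by a finite set has finite-dimensional depth quotients -/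
theorem fg_of_gen {K : Submodule ℚ A} (h1 : K ≤ D 1) {V₀ : Submodule ℚ A} (hV₀ : V₀.FG)
    (hK : K ≤ V₀ ⊔ Submodule.map₂ iharaL K K) : ∀ k, (K.map (D k).mkQ).FG := by
  intro k
  induction k with
  | zero =>
    have : K.map (D 0).mkQ = ⊥ := by
      rw [eq_bot_iff]
      rintro _ ⟨φ, _, rfl⟩
      rw [Submodule.mem_bot, Submodule.mkQ_apply, Submodule.Quotient.mk_eq_zero]
      exact fun u _ => Nat.zero_le _
    rw [this]
    exact Submodule.fg_bot
  | succ k ih =>
    obtain ⟨V, hV, hVK, hKV⟩ := fg_lift ih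
    have h2 : (V₀ ⊔ Submodule.map₂ iharaL V V).FG := hV₀.sup (hV.map₂ iharaL hV)
    refine fg_le ?_ (h2.map (D (k + 1)).mkQ)
    have h3 : K ≤ (V₀ ⊔ Submodule.map₂ iharaL V V) ⊔ D (k + 1) := by
      refine hK.trans (sup_le (le_sup_left.trans le_sup_left) ?_)
      rw [Submodule.map₂_le]
      intro a ha b hb
      obtain ⟨v, hv, d, hd, rfl⟩ := Submodule.mem_sup.1 (hKV ha)
      obtain ⟨v', hv', d', hd', rfl⟩ := Submodule.mem_sup.1 (hKV hb)
      have e1 : iharaL (v + d) (v' + d') = iharaL v v' + (ihara v d' + ihara d (v' + d')) := by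
        rw [map_add iharaL, LinearMap.add_apply, map_add (iharaL v), iharaL_apply v d',
          iharaL_apply d (v' + d')]
        abel
      rw [e1]
      refine Submodule.add_mem_sup (Submodule.mem_sup_right (Submodule.apply_mem_map₂ _ hv hv')) ?_
      refine (D (k + 1)).add_mem ?_ ?_
      · have := ihara_mem_D (h1 (hVK hv)) hd'
        rwa [add_comm 1 k] at this
      · exact ihara_mem_D hd (h1 hb)
    intro y hy
    obtain ⟨a, ha, rfl⟩ := hy
    obtain ⟨v, hv, d, hd, rfl⟩ := Submodule.mem_sup.1 (h3 ha)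
    refine ⟨v, hv, ?_⟩
    rw [map_add]
    have : (D (k + 1)).mkQ d = 0 := by
      rw [Submodule.mkQ_apply, Submodule.Quotient.mk_eq_zero]
      exact hd
    rw [this, add_zero]

lemma Good.mono {K L : Submodule ℚ A} (h : K ≤ L) (hL : Good L) : Good K := fun φ hφ => hL φ (h hφ)

/-- ascending chains in which each term idealizes the preceding one -/
theorem chain (n : ℕ) : ∀ (C : ℕ → Submodule ℚ A), Good (C n) → ∀ {ψ : A} {r : ℕ}, ψ ∈ C 0 →
    ψ ∈ D r → dpart r ψ ≠ 0 → (∀ i < n, C i ≤ C (i + 1)) →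
    (∀ i < n, ∀ φ ∈ C (i + 1), ∀ ψ ∈ C i, ihara φ ψ ∈ C i) →
    ∀ k, ((C 0).map (D (k + n * r)).mkQ).FG → ((C n).map (D k).mkQ).FG := by
  induction n with
  | zero =>
    intro C _ ψ r _ _ _ _ _ k h
    rwa [zero_mul, add_zero] at h
  | succ n ih =>
    intro C g ψ r hψ hr hr0 hmono hbr k h
    have h1 : ∀ m, m ≤ n → C 0 ≤ C m := by
      intro m
      induction m with
      | zero => exact fun _ => le_rfl
      | succ m ihm => exact fun hm => (ihm (by omega)).trans (hmono m (by omega))
    have h2 := hmono n (Nat.lt_succ_self n)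
    refine idealizer (g.mono h2) g (h1 n le_rfl hψ) hr hr0 (hbr n (Nat.lt_succ_self n)) k
      (ih C (g.mono h2) hψ hr hr0 (fun i hi => hmono i (by omega)) (fun i hi => hbr i (by omega))
        (k + r) ?_)
    have e : k + (n + 1) * r = k + r + n * r := by ring
    rwa [e] at h

end Pool.Agent.H159.LS
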