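import Pool.Agent.H777R4.DM.Asm

/-! MP_ec2393_nt: any two linearly independent elements of the linearised double shuffle Lie algebra
generate a free Lie algebra of rank two. -/

set_option autoImplicit false

namespace Pool.Agent.H159.LS

open Pool.Agent.H777R4.DM Pool.Agent.H217R3.DMC MonoidAlgebra

attribute [local instance 100] LieRing.ofAssociativeRing

/-- Linearised double shuffle elements: `ψ` is a Lie element all of whose words have length at least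
three and depth (number of letters `x₁`) at least one, and for all `w` and `r` the polynomial in
`y₁, y₂, …` whose coefficients are those of the words of `ψ` ending in `x₁`, of weight `w` and
depth `r`, is primitive for the coproduct with all letters primitive (the linearised stuffle
relations). -/
structure IsLS (ψ : A) : Prop where
  mem : ψ ∈ LieX
  small : ∀ u, co ψ u ≠ 0 → 3 ≤ u.length ∧ 1 ≤ u.count 1
  prim : ∀ (w r : ℕ) (F : AY), (∀ v, co F v =
    if v.length = r ∧ v.sum + v.length = w then co ψ (wordX v) else 0) → Prim F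

lemma co_Fp_comp (w r : ℕ) (ψ : A) (v : List ℕ) : co (Fp r (H777R4.DM.comp w ψ) 0) v =
    if v.length = r ∧ v.sum + v.length = w then co ψ (wordX v) else 0 := by
  rw [co_Fp, List.replicate_zero, List.append_nil, H777R4.DM.co_comp, wordX_length]
  by_cases h1 : v.length = r
  · by_cases h2 : v.sum + v.length = w
    · rw [if_pos h1, if_pos h2, if_pos ⟨h1, h2⟩]
    · rw [if_pos h1, if_neg h2, if_neg (fun h => h2 h.2)]
  · rw [if_neg h1, if_neg (fun h => h1 h.1)]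

lemma IsLS.fp {ψ : A} (h : IsLS ψ) (w r : ℕ) : Prim (Fp r (H777R4.DM.comp w ψ) 0) :=
  h.prim w r _ (co_Fp_comp w r ψ)

lemma isLS_of {ψ : A} (h1 : ψ ∈ LieX) (h2 : ∀ u, co ψ u ≠ 0 → 3 ≤ u.length ∧ 1 ≤ u.count 1)
    (h3 : ∀ w r, Prim (Fp r (H777R4.DM.comp w ψ) 0)) : IsLS ψ := by
  refine ⟨h1, h2, fun w r F hF => ?_⟩
  have : F = Fp r (H777R4.DM.comp w ψ) 0 := al_ext fun v => by rw [hF, co_Fp_comp]
  rw [this]
  exact h3 w r

lemma isLS_sub {ψ₁ ψ₂ : A} (h₁ : IsLS ψ₁) (h₂ : IsLS ψ₂) (κ : ℚ) : IsLS (ψ₂ - κ • ψ₁) := by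
  refine isLS_of (LieX.sub_mem h₂.mem (LieX.smul_mem κ h₁.mem)) ?_ ?_
  · intro u hu
    rw [H777R4.DM.co_sub, H777R4.DM.co_smul] at hu
    by_cases h : co ψ₂ u = 0
    · refine h₁.small u fun h' => hu ?_
      rw [h, h']; ring
    · exact h₂.small u h
  · intro w r
    rw [map_sub, map_smul, Fp_sub]
    exact prim_sub (h₂.fp w r) (prim_smul κ (h₁.fp w r))

lemma comp_comp (w w' : ℕ) (ψ : A) : H777R4.DM.comp w (H777R4.DM.comp w' ψ) =
    if w = w' then H777R4.DM.comp w ψ else 0 := by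
  apply al_ext
  intro l
  rw [H777R4.DM.co_comp, H777R4.DM.co_comp]
  by_cases h : w = w'
  · subst h
    rw [if_pos rfl, H777R4.DM.co_comp]
    split_ifs <;> rfl
  · rw [if_neg h, H777R4.DM.co_zero]
    split_ifs with h1 h2
    · exact absurd (h1.symm.trans h2) h
    · rfl
    · rfl

lemma Fp_zero (r j : ℕ) : Fp r (0 : A) j = 0 := by
  unfold Fp
  rw [map_zero, map_zero]

lemma prim_zero : Prim (0 : AY) := by
  have := prim_smul (P := 0) (0 : ℚ)
  unfold Prim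
  simp

lemma isLS_comp {ψ : A} (h : IsLS ψ) (w : ℕ) : IsLS (H777R4.DM.comp w ψ) := by
  refine isLS_of (H217R3.DMC.LieX_le h.mem w) ?_ ?_
  · intro u hu
    rw [H777R4.DM.co_comp] at hu
    split_ifs at hu with h1
    · exact h.small u hu
    · exact absurd rfl hu
  · intro w' r
    rw [comp_comp]
    split_ifs with h1
    · exact h.fp w' r
    · rw [Fp_zero]; exact prim_zero

lemma prof_ls {ψ : A} {w : ℕ} (hψ : IsLS ψ) (hw : LenHom ψ w) (h0 : ψ ≠ 0) :
    ∃ r k, Prof ψ w r k := by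
  classical
  have small := hψ.small
  have c0 : co ψ [0] = 0 := by
    by_contra h
    have := (small _ h).1
    simp at this
  have c1 : co ψ [1] = 0 := by
    by_contra h
    have := (small _ h).1
    simp at this
  have hex : ∃ c, ∃ u, co ψ u ≠ 0 ∧ u.count 1 = c := by
    obtain ⟨u, hu⟩ := H777R4.DM.exists_co_ne h0
    exact ⟨_, u, hu, rfl⟩
  obtain ⟨r, hr⟩ : ∃ r, r = Nat.find hex := ⟨_, rfl⟩
  have hspec : ∃ u, co ψ u ≠ 0 ∧ u.count 1 = r := by rw [hr]; exact Nat.find_spec hex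
  have hmin : ∀ u, co ψ u ≠ 0 → r ≤ u.count 1 := by
    intro u hu
    rw [hr]
    exact Nat.find_min' hex ⟨u, hu, rfl⟩
  have hr1 : 1 ≤ r := by
    obtain ⟨u, hu, h1⟩ := hspec
    rw [← h1]
    exact (small u hu).2
  have hF0 : ∀ v, co (Fp r ψ 0) v = if v.length = r then co ψ (wordX v) else 0 := by
    intro v
    rw [co_Fp, List.replicate_zero, List.append_nil]
  have hR : ∀ j : ℕ, ((j : ℚ) + 1) • Fp r ψ (j + 1) = - dl (Fp r ψ j) := by
    intro j
    have := congrArg (dp r) (Pool.Agent.H777R4.DM.R0.taskR0 ψ hψ.mem c0 j)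
    rw [map_smul, map_neg, dp_dl] at this
    exact this
  have hcw : H777R4.DM.comp w ψ = ψ := by
    apply al_ext
    intro l
    rw [H777R4.DM.co_comp]
    by_cases h : co ψ l = 0
    · rw [h]; split_ifs <;> rfl
    · rw [if_pos (hw l h)]
  have hp0 : Prim (Fp r ψ 0) := by
    have := hψ.fp w r
    rwa [hcw] at this
  have hprim : ∀ j, Prim (Fp r ψ j) := by
    intro j
    induction j with
    | zero => exact hp0
    | succ j ih =>
      have h1 : Fp r ψ (j + 1) = ((j : ℚ) + 1)⁻¹ • (- dl (Fp r ψ j)) := by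
        rw [← hR j, smul_smul, inv_mul_cancel₀ (by positivity), one_smul]
      rw [h1]
      exact prim_smul _ (prim_neg (Pool.Agent.H237R3.DM.taskDelta _ ih))
  obtain ⟨k, v, hk, hv, hkv⟩ := Pool.Agent.H988R3.DM.taskTwoD H777DSH.H610.taskTwoA taskTwoB
    Pool.Agent.H352.DSH.taskTwoC ψ hψ.mem c0 c1 (fun u hu => (small u hu).1) r hr1 hmin
    hspec (Fp r ψ 0) hF0 (hprim 0)
  have hne : Fp r ψ k ≠ 0 := by
    intro h
    have h1 := co_Fp r ψ k v
    rw [h, H777R4.DM.co_zero, if_pos hv] at h1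
    exact hkv h1.symm
  have hbd : ∀ j, Fp r ψ j ≠ 0 → j ≤ w := by
    intro j hj
    obtain ⟨v, hv⟩ := H777R4.DM.exists_co_ne hj
    have := (co_Fp_ne hw hv).2
    omega
  refine ⟨r, Nat.findGreatest (fun j => Fp r ψ j ≠ 0) w, hr1, ?_, hw, hmin, ?_, ?_, hprim, hR⟩
  · exact le_trans hk (Nat.le_findGreatest (hbd k hne) hne)
  · exact Nat.findGreatest_spec (P := fun j => Fp r ψ j ≠ 0) (hbd k hne) hne
  · intro j hj
    by_contra hcon
    exact Nat.findGreatest_is_greatest hj (hbd j hcon) hcon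

theorem homog_ls (ψ₁ ψ₂ : A) (w₁ w₂ : ℕ) (h₁ : IsLS ψ₁) (h₂ : IsLS ψ₂) (hw₁ : LenHom ψ₁ w₁)
    (hw₂ : LenHom ψ₂ w₂) (hli : ∀ a b : ℚ, a • ψ₁ + b • ψ₂ = 0 → a = 0 ∧ b = 0) :
    Function.Injective (Phi ψ₁ ψ₂) := by
  have kl1 := Pool.Agent.H835R4.KL1.taskKL1
  have kl2 := Pool.Agent.H428R3.DMKL2.kl2
  have l1 := Pool.Agent.H337R3.Lead1.lead1
  have l2 := Pool.Agent.H777R4.DM.Lead2.lead2_ok
  have n1 : ψ₁ ≠ 0 := by
    intro h
    have := hli 1 0 (by rw [h]; simp)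
    exact one_ne_zero this.1
  have n2 : ψ₂ ≠ 0 := by
    intro h
    have := hli 0 1 (by rw [h]; simp)
    exact one_ne_zero this.2
  obtain ⟨r₁, k₁, P₁⟩ := prof_ls h₁ hw₁ n1
  obtain ⟨r₂, k₂, P₂⟩ := prof_ls h₂ hw₂ n2
  by_cases hA : ∀ c : ℚ, Fp r₂ ψ₂ k₂ ≠ c • Fp r₁ ψ₁ k₁
  · refine caseA kl1 kl2 l1 l2 P₁ P₂ ?_ hA
    intro c hc
    have hc0 : c ≠ 0 := by
      rintro rfl
      rw [zero_smul] at hc
      exact P₁.top hc
    apply hA c⁻¹
    rw [hc, smul_smul, inv_mul_cancel₀ hc0, one_smul]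
  · push Not at hA
    obtain ⟨κ, hκ⟩ := hA
    have hκ0 : κ ≠ 0 := by
      rintro rfl
      rw [zero_smul] at hκ
      exact P₂.top hκ
    -- depths agree
    have hr : r₁ = r₂ := by
      obtain ⟨v, hv⟩ := H777R4.DM.exists_co_ne P₁.top
      have h1 := Fp_lenHom _ _ _ v hv
      have h2 : co (Fp r₂ ψ₂ k₂) v ≠ 0 := by
        rw [hκ, H777R4.DM.co_smul]; exact mul_ne_zero hκ0 hv
      have h3 := Fp_lenHom _ _ _ v h2
      omega
    subst hr
    apply taskShear_proof ψ₁ ψ₂ κ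
    by_cases hw : w₁ = w₂
    · subst hw
      have hk : k₁ = k₂ := by
        obtain ⟨v, hv⟩ := H777R4.DM.exists_co_ne P₁.top
        have h1 := (co_Fp_ne P₁.hom hv).2
        have h2 : co (Fp r₁ ψ₂ k₂) v ≠ 0 := by
          rw [hκ, H777R4.DM.co_smul]; exact mul_ne_zero hκ0 hv
        have h3 := (co_Fp_ne P₂.hom h2).2
        omega
      subst hk
      have hne : ψ₂ - κ • ψ₁ ≠ 0 := by
        intro h
        have := hli (-κ) 1 (by rw [← h]; module)
        exact one_ne_zero this.2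
      obtain ⟨r', k', P'⟩ := prof_ls (isLS_sub h₁ h₂ κ)
        (lenHom_sub hw₁ hw₂ κ) hne
      have hd : ∀ v, co (Fp r₁ ψ₁ k₁) v ≠ 0 → co (Fp r' (ψ₂ - κ • ψ₁) k') v ≠ 0 → False := by
        intro v hv1 hv2
        have e1 := co_Fp_ne P₁.hom hv1
        have e2 := co_Fp_ne P'.hom hv2
        have e3 : r' = r₁ := by omega
        subst e3
        have e4 : k' = k₁ := by omega
        subst e4
        apply P'.top
        rw [Fp_sub, hκ, sub_self]
      refine caseA kl1 kl2 l1 l2 P₁ P' (not_prop P₁.top ?_) (not_prop P'.top ?_)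
      · intro v hv
        by_contra hcon
        exact hd v hv hcon
      · intro v hv
        by_contra hcon
        exact hd v hcon hv
    · exact caseB2 kl1 kl2 l1 l2 P₁ P₂ κ hκ0 hw hκ

lemma low_ls {ψ₁ ψ₂ : A} (h₁ : IsLS ψ₁)
    (h₂ : IsLS ψ₂) {w₁ w₂ : ℕ} (l₁ : ∀ u, co ψ₁ u ≠ 0 → w₁ ≤ u.length)
    (l₂ : ∀ u, co ψ₂ u ≠ 0 → w₂ ≤ u.length)
    (hli : ∀ a b : ℚ, a • H777R4.DM.comp w₁ ψ₁ + b • H777R4.DM.comp w₂ ψ₂ = 0 → a = 0 ∧ b = 0) :
    Function.Injective (Phi ψ₁ ψ₂) := by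
  refine Pool.Agent.H28R3.DM.Low.low ![ψ₁, ψ₂] ![w₁, w₂] ?_ ?_
  · rw [Fin.forall_fin_two]
    exact ⟨l₁, l₂⟩
  · exact homog_ls _ _ w₁ w₂ (isLS_comp h₁ w₁) (isLS_comp h₂ w₂) (comp_lenHom w₁ ψ₁)
      (comp_lenHom w₂ ψ₂) hli

theorem inj_ls {ψ₁ ψ₂ : A} (h₁ : IsLS ψ₁) (h₂ : IsLS ψ₂)
    (hli : ∀ a b : ℚ, a • ψ₁ + b • ψ₂ = 0 → a = 0 ∧ b = 0) :
    Function.Injective (Phi ψ₁ ψ₂) := by
  have n1 : ψ₁ ≠ 0 := by
    intro h
    have := hli 1 0 (by rw [h]; simp)
    exact one_ne_zero this.1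
  have n2 : ψ₂ ≠ 0 := by
    intro h
    have := hli 0 1 (by rw [h]; simp)
    exact one_ne_zero this.2
  obtain ⟨w₁, l₁, c₁⟩ := exists_low n1
  obtain ⟨w₂, l₂, c₂⟩ := exists_low n2
  by_cases hA : ∀ c : ℚ, H777R4.DM.comp w₂ ψ₂ ≠ c • H777R4.DM.comp w₁ ψ₁
  · refine low_ls h₁ h₂ l₁ l₂ ?_
    intro a b hab
    have hb : b = 0 := by
      by_contra hb
      apply hA (-(b⁻¹ * a))
      have h3 : b • H777R4.DM.comp w₂ ψ₂ = - (a • H777R4.DM.comp w₁ ψ₁) :=
        eq_neg_of_add_eq_zero_right hab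
      have h4 : H777R4.DM.comp w₂ ψ₂ = b⁻¹ • (b • H777R4.DM.comp w₂ ψ₂) := by
        rw [smul_smul, inv_mul_cancel₀ hb, one_smul]
      rw [h4, h3]
      module
    refine ⟨?_, hb⟩
    rw [hb, zero_smul, add_zero] at hab
    exact (smul_eq_zero.mp hab).resolve_right c₁
  · push Not at hA
    obtain ⟨κ, hκ⟩ := hA
    have hκ0 : κ ≠ 0 := by
      rintro rfl
      rw [zero_smul] at hκ
      exact c₂ hκ
    have hw : w₁ = w₂ := by
      obtain ⟨u, hu⟩ := H777R4.DM.exists_co_ne c₁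
      have h1 := comp_lenHom _ _ u hu
      have h2 : co (H777R4.DM.comp w₂ ψ₂) u ≠ 0 := by
        rw [hκ, H777R4.DM.co_smul]; exact mul_ne_zero hκ0 hu
      have h3 := comp_lenHom _ _ u h2
      omega
    subst hw
    apply taskShear_proof ψ₁ ψ₂ κ
    have hne : ψ₂ - κ • ψ₁ ≠ 0 := by
      intro h
      have := hli (-κ) 1 (by rw [← h]; module)
      exact one_ne_zero this.2
    have hd := isLS_sub h₁ h₂ κ
    obtain ⟨w₃, l₃, c₃⟩ := exists_low hne
    refine low_ls h₁ hd l₁ l₃ ?_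
    refine indep_of_ne (comp_lenHom _ _) (comp_lenHom _ _) c₁ c₃ ?_
    rintro rfl
    apply c₃
    rw [map_sub, map_smul, hκ, sub_self]

/-- the bracket of two linearly independent elements is not zero -/
theorem ihara_ne_zero {f g : A} (h₁ : IsLS f) (h₂ : IsLS g)
    (hli : ∀ a b : ℚ, a • f + b • g = 0 → a = 0 ∧ b = 0) : ihara f g ≠ 0 := by
  intro h
  have hx : ∀ i, x i ∈ LieX := by
    intro i
    unfold LieX
    apply LieSubalgebra.subset_lieSpan
    fin_cases i <;> simp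
  have h1 := phi_lie f g (x 0) (x 1) (hx 0) (hx 1)
  rw [phi_x0, phi_x1, h] at h1
  have h2 : x 0 * x 1 - x 1 * x 0 = (0 : A) := inj_ls h₁ h₂ hli (by rw [h1, map_zero])
  have h3 := H777R4.DM.co_sub (x 0 * x 1) (x 1 * x 0) [0, 1]
  rw [h2, H777R4.DM.co_zero] at h3
  unfold x at h3
  rw [wd_mul, wd_mul, H777R4.DM.co_wd, H777R4.DM.co_wd] at h3
  simp at h3

end Pool.Agent.H159.LS
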